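import Pool.Agent.LT4.Main

/-!
# MP_ee2f63_co: `R_k(n) ≥ (3 - 2 ^ (-⌊k/2⌋)) n - log₂ n - 3 k` for all `k`

A sequence of lazy transpositions on `Fin n` is a list of pairs of distinct elements.  By the
equivalent form in the problem file, it is `k`-reaching if for every two `k`-tuples `x`, `y` of
distinct elements there is a subsequence whose product maps `x i` to `y i` for all `i`.
-/

set_option autoImplicit false

namespace Pool.Agent.Results.MP_ee2f63_co.AllKLower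

/-- the list `L` of transpositions is `k`-reaching -/
def Reaching (k n : ℕ) (L : List (Fin n × Fin n)) : Prop :=
  ∀ x y : Fin k → Fin n, Function.Injective x → Function.Injective y →
    ∃ S : List (Fin n × Fin n), S.Sublist L ∧
      ∀ i, (S.map fun c => Equiv.swap c.1 c.2).prod (x i) = y i

/-- `R_k(n)`: the minimum length of a `k`-reaching sequence of (lazy) transpositions on `Fin n` -/
noncomputable def R (k n : ℕ) : ℕ :=
  sInf {l | ∃ L : List (Fin n × Fin n), L.length = l ∧ (∀ c ∈ L, c.1 ≠ c.2) ∧ Reaching k n L}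

/-- `k`-reaching sequences exist -/
private theorem nonempty (k n : ℕ) :
    {l | ∃ L : List (Fin n × Fin n), L.length = l ∧ (∀ c ∈ L, c.1 ≠ c.2) ∧ Reaching k n L}.Nonempty := by
  obtain ⟨L, h1, h2⟩ := LT4.exists_mid n k
  exact ⟨L.length, L, rfl, h1, h2⟩

/-- For every `k ≥ 1`, with `r = ⌊k/2⌋`, and all `n ≥ k`: `(3 - 2 ^ (-r)) n - log₂ n - 3 k ≤ R_k(n)`; the minimum
`R_k(n)` is attained. -/
theorem result (k n : ℕ) (hk : 1 ≤ k) (hkn : k ≤ n) :
    (∃ L : List (Fin n × Fin n), L.length = R k n ∧ (∀ c ∈ L, c.1 ≠ c.2) ∧ Reaching k n L) ∧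
    (3 - (1 / 2 : ℝ) ^ (k / 2)) * n - Nat.log 2 n - 3 * k ≤ R k n := by
  have h1 : R k n ∈ {l | ∃ L : List (Fin n × Fin n), L.length = l ∧ (∀ c ∈ L, c.1 ≠ c.2) ∧ Reaching k n L} :=
    Nat.sInf_mem (nonempty k n)
  refine ⟨h1, ?_⟩
  obtain ⟨L, hL1, hL2, hL3⟩ := h1
  have h2 := LT4.lower (V := Fin n) (k := k) (r := k / 2) (by omega) (by rw [Fintype.card_fin]; exact hkn) hk hL2
    (fun x y hx hy => hL3 x y hx hy)
  rw [Fintype.card_fin, hL1] at h2
  obtain ⟨q, hq⟩ : ∃ q, q + 1 = 2 ^ (k / 2) := ⟨2 ^ (k / 2) - 1, by have : 1 ≤ 2 ^ (k / 2) := Nat.one_le_two_pow; omega⟩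
  rw [← hq, show 3 * (q + 1) - 1 = 3 * q + 2 by omega] at h2
  have h3 : ((3 * q + 2 : ℕ) : ℝ) * n ≤ ((q + 1 : ℕ) : ℝ) * (R k n + Nat.log 2 n + 3 * k) := by
    exact_mod_cast h2
  have h4 : ((q + 1 : ℕ) : ℝ) = 2 ^ (k / 2) := by
    rw [hq]
    push_cast
    rfl
  have h5 : (0 : ℝ) < ((q + 1 : ℕ) : ℝ) := by positivity
  have h6 : (1 / 2 : ℝ) ^ (k / 2) = 1 / ((q + 1 : ℕ) : ℝ) := by
    rw [h4, one_div_pow]
  rw [h6]
  have h7 : (3 - 1 / ((q + 1 : ℕ) : ℝ)) * n * ((q + 1 : ℕ) : ℝ) = ((3 * q + 2 : ℕ) : ℝ) * n := by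
    field_simp
    push_cast
    ring
  have h8 : (3 - 1 / ((q + 1 : ℕ) : ℝ)) * n ≤ R k n + Nat.log 2 n + 3 * k := by
    rw [← mul_le_mul_iff_left₀ h5, h7]
    linarith
  linarith

end Pool.Agent.Results.MP_ee2f63_co.AllKLower
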