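import Pool.Agent.LT4.Main

/-!
# MP_ee2f63_co: `R_k(n) ≤ (4 - 2 ^ (1 - ⌊k/2⌋) + o(1)) n` for all `k`

A sequence of lazy transpositions on `Fin n` is a list of pairs of distinct elements.  By the
equivalent form in the problem file, it is `k`-reaching if for every two `k`-tuples `x`, `y` of
distinct elements there is a subsequence whose product maps `x i` to `y i` for all `i`.
-/

set_option autoImplicit false

namespace Pool.Agent.Results.MP_ee2f63_co.AllKUpper

/-- the list `L` of transpositions is `k`-reaching -/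
def Reaching (k n : ℕ) (L : List (Fin n × Fin n)) : Prop :=
  ∀ x y : Fin k → Fin n, Function.Injective x → Function.Injective y →
    ∃ S : List (Fin n × Fin n), S.Sublist L ∧
      ∀ i, (S.map fun c => Equiv.swap c.1 c.2).prod (x i) = y i

/-- For every `k` and every `ε > 0`, if `n` is large then there is a `k`-reaching sequence of at most
`(4 - 2 · 2 ^ (-⌊k/2⌋) + ε) n` transpositions on `Fin n`. -/
theorem result (k : ℕ) (ε : ℝ) (hε : 0 < ε) :
    ∃ n₀ : ℕ, ∀ n ≥ n₀, ∃ L : List (Fin n × Fin n), (∀ c ∈ L, c.1 ≠ c.2) ∧ Reaching k n L ∧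
      (L.length : ℝ) ≤ (4 - 2 * (1 / 2) ^ (k / 2) + ε) * n := by
  obtain ⟨n₀, h⟩ := LT4.upper k hε
  refine ⟨n₀, fun n hn => ?_⟩
  obtain ⟨L, h1, h2, h3⟩ := h n hn
  refine ⟨L, h1, h2, ?_⟩
  have h4 : (2 : ℝ) * (1 / 2) ^ (k / 2) = 2 / 2 ^ (k / 2) := by
    rw [one_div_pow, mul_one_div]
  rw [h4]
  exact h3

end Pool.Agent.Results.MP_ee2f63_co.AllKUpper
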