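import Pool.Agent.LT74.Up

/-!
# MP_ee2f63_co: the minimum length of 2-reaching sequences is `5 n / 2` up to a logarithm

A sequence of lazy transpositions on `Fin n` is a list of pairs of distinct elements.  By the
equivalent form in the problem file, it is `k`-reaching if for every two `k`-tuples `x`, `y` of
distinct elements there is a subsequence whose product maps `x i` to `y i` for all `i`.
-/

namespace Pool.Agent.Results.MP_ee2f63_co.PairConstant

open Filter Topology

/-- the list `L` of transpositions is `k`-reaching -/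
def Reaching (k n : ℕ) (L : List (Fin n × Fin n)) : Prop :=
  ∀ x y : Fin k → Fin n, Function.Injective x → Function.Injective y →
    ∃ S : List (Fin n × Fin n), S.Sublist L ∧
      ∀ i, (S.map fun c => Equiv.swap c.1 c.2).prod (x i) = y i

/-- `R_k(n)`: the minimum length of a `k`-reaching sequence of (lazy) transpositions on `Fin n` -/
noncomputable def R (k n : ℕ) : ℕ :=
  sInf {l | ∃ L : List (Fin n × Fin n), L.length = l ∧ (∀ c ∈ L, c.1 ≠ c.2) ∧ Reaching k n L}

open Pool.Agent.LT74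

private theorem rch2_iff {n : ℕ} (L : List (Fin n × Fin n)) (s t : Fin n × Fin n) :
    Rch2 L s t ↔ ∃ S : List (Fin n × Fin n), S.Sublist L ∧
      (S.map fun c => Equiv.swap c.1 c.2).prod s.1 = t.1 ∧
      (S.map fun c => Equiv.swap c.1 c.2).prod s.2 = t.2 := by
  induction L generalizing t with
  | nil =>
    constructor
    · intro h
      refine ⟨[], List.Sublist.refl _, ?_, ?_⟩
      · exact congrArg Prod.fst h
      · exact congrArg Prod.snd h
    · rintro ⟨S, hS, h1, h2⟩
      rw [List.sublist_nil] at hS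
      subst hS
      exact Prod.ext h1 h2
  | cons c L ih =>
    constructor
    · rintro (h | h)
      · obtain ⟨S, hS, h1, h2⟩ := (ih t).1 h
        exact ⟨S, hS.cons c, h1, h2⟩
      · obtain ⟨S, hS, h1, h2⟩ := (ih _).1 h
        refine ⟨c :: S, hS.cons_cons c, ?_, ?_⟩
        · rw [List.map_cons, List.prod_cons, Equiv.Perm.mul_apply, h1]
          exact Equiv.swap_apply_self _ _ _
        · rw [List.map_cons, List.prod_cons, Equiv.Perm.mul_apply, h2]
          exact Equiv.swap_apply_self _ _ _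
    · rintro ⟨S, hS, h1, h2⟩
      rcases List.sublist_cons_iff.1 hS with h3 | ⟨S', rfl, h3⟩
      · exact Or.inl ((ih t).2 ⟨S, h3, h1, h2⟩)
      · rw [List.map_cons, List.prod_cons, Equiv.Perm.mul_apply] at h1 h2
        refine Or.inr ((ih _).2 ⟨S', h3, ?_, ?_⟩)
        · rw [← h1]
          exact (Equiv.swap_apply_self _ _ _).symm
        · rw [← h2]
          exact (Equiv.swap_apply_self _ _ _).symm

private theorem reaching_iff {n : ℕ} (L : List (Fin n × Fin n)) :
    Reaching 2 n L ↔ ∀ x x' p q : Fin n, x ≠ x' → p ≠ q → Rch2 L (x, x') (p, q) := by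
  constructor
  · intro h x x' p q hx hp
    have hinj : ∀ a b : Fin n, a ≠ b → Function.Injective (![a, b] : Fin 2 → Fin n) := by
      intro a b hab i j hij
      fin_cases i <;> fin_cases j <;> simp_all
    obtain ⟨S, hS, h1⟩ := h ![x, x'] ![p, q] (hinj _ _ hx) (hinj _ _ hp)
    exact (rch2_iff L _ _).2 ⟨S, hS, h1 0, h1 1⟩
  · intro h x y hx hy
    have h1 := h (x 0) (x 1) (y 0) (y 1) (fun e => absurd (hx e) (by decide))
      (fun e => absurd (hy e) (by decide))
    obtain ⟨S, hS, h2, h3⟩ := (rch2_iff L _ _).1 h1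
    refine ⟨S, hS, fun i => ?_⟩
    fin_cases i
    · exact h2
    · exact h3

/-- the network -/
private theorem exists_net (n : ℕ) (hn : 2 ≤ n) : ∃ L : List (Fin n × Fin n),
    L.length = 5 * n / 2 - 3 ∧ (∀ c ∈ L, c.1 ≠ c.2) ∧ Reaching 2 n L := by
  obtain ⟨m, o, hmo⟩ : ∃ (m : ℕ) (o : Bool), n = 2 * m + 2 + o.toNat := by
    rcases Nat.even_or_odd' n with ⟨c, hc | hc⟩
    · exact ⟨c - 1, false, by simp; omega⟩
    · exact ⟨c - 1, true, by simp; omega⟩
  obtain ⟨N, hN⟩ : ∃ N, N = net (List.range m) (zs o m) := ⟨_, rfl⟩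
  have hlen : N.length = 5 * n / 2 - 3 := by
    rw [hN, length_net, List.length_range, hmo]
    cases o
    · simp [zs]; omega
    · simp [zs]; omega
  have hmem : ∀ c ∈ N, c.1 < n ∧ c.2 < n ∧ c.1 ≠ c.2 := by
    have hz : ∀ z ∈ zs o m, z < n ∧ z ≠ 0 := by
      intro z hz
      cases o
      · simp [zs] at hz
      · simp only [zs, if_true, List.mem_singleton] at hz
        rw [hz, hmo]
        simp
    intro c hc
    rw [hN] at hc
    simp only [net, List.mem_append, List.mem_map, List.mem_range, List.mem_singleton] at hc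
    have h0 : 2 * m + 2 ≤ n := by omega
    rcases hc with ⟨i, hi, rfl⟩ | ⟨z, hz', rfl⟩ | ⟨i, hi, rfl⟩ | rfl | ⟨z, hz', rfl⟩ |
      ⟨i, hi, rfl⟩ | rfl | ⟨i, hi, rfl⟩ | ⟨i, hi, rfl⟩
    · simp; omega
    · have := hz z hz'
      exact ⟨this.1, by simp; omega, this.2⟩
    · simp; omega
    · simp; omega
    · have := hz z hz'
      exact ⟨this.1, by simp; omega, this.2⟩
    · simp; omega
    · simp; omega
    · simp; omega
    · simp; omega
  obtain ⟨f, hf⟩ : ∃ f : ℕ → Fin n, ∀ k, (f k).val = k % n :=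
    ⟨fun k => ⟨k % n, Nat.mod_lt _ (by omega)⟩, fun _ => rfl⟩
  have hf' : ∀ k < n, (f k).val = k := fun k hk => by rw [hf, Nat.mod_eq_of_lt hk]
  have hinj : Set.InjOn f {k | k < n} := by
    intro a ha b hb hab
    have h1 := congrArg Fin.val hab
    rw [hf' a ha, hf' b hb] at h1
    exact h1
  refine ⟨N.map fun c => (f c.1, f c.2), by rw [List.length_map, hlen], ?_, ?_⟩
  · intro c hc
    obtain ⟨d, hd, rfl⟩ := List.mem_map.1 hc
    have h1 := hmem d hd
    exact fun e => h1.2.2 (hinj h1.1 h1.2.1 e)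
  · rw [reaching_iff]
    intro x x' p q hx hp
    have h1 := big o m x.val x'.val p.val q.val (hmo ▸ x.2) (hmo ▸ x'.2) (hmo ▸ p.2) (hmo ▸ q.2)
      (fun e => hx (Fin.ext e)) (fun e => hp (Fin.ext e))
    rw [← hN] at h1
    have h2 := h1.map (S := {k | k < n}) (f := f) hinj
      (fun c hc => ⟨(hmem c hc).1, (hmem c hc).2.1⟩) (t := (p.val, q.val)) p.2 q.2
    have h3 : ∀ a : Fin n, f a.val = a := fun a => Fin.ext (hf' _ a.2)
    simp only [h3] at h2
    exact h2

private theorem upper (n : ℕ) (hn : 2 ≤ n) : R 2 n ≤ 5 * n / 2 - 3 :=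
  Nat.sInf_le (exists_net n hn)

private theorem lower (n : ℕ) (hn : 2 ≤ n) : 5 * n ≤ 2 * R 2 n + 2 * Nat.log 2 n + 10 := by
  obtain ⟨L, hL, -, hr⟩ := Nat.sInf_mem (s := {l | ∃ L : List (Fin n × Fin n), L.length = l ∧
    (∀ c ∈ L, c.1 ≠ c.2) ∧ Reaching 2 n L}) ⟨_, exists_net n hn⟩
  have h1 := low L (by rw [Fintype.card_fin]; exact hn) ((reaching_iff L).1 hr)
  rw [Fintype.card_fin, hL] at h1
  exact h1

/-- For all `n ≥ 2`, `5 n / 2 - log₂ n - 5 ≤ R_2(n) ≤ 5 n / 2 - 3`; in particular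
`R_2(n) / n` converges to `5 / 2`. -/
theorem result :
    (∀ n : ℕ, 2 ≤ n → 5 * (n : ℝ) / 2 - Nat.log 2 n - 5 ≤ R 2 n ∧
      (R 2 n : ℝ) ≤ 5 * (n : ℝ) / 2 - 3) ∧
    Tendsto (fun n : ℕ => (R 2 n : ℝ) / n) atTop (𝓝 (5 / 2)) := by
  have key : ∀ n : ℕ, 2 ≤ n → 5 * (n : ℝ) / 2 - Nat.log 2 n - 5 ≤ R 2 n ∧
      (R 2 n : ℝ) ≤ 5 * (n : ℝ) / 2 - 3 := by
    intro n hn
    constructor
    · have h1 : ((5 * n : ℕ) : ℝ) ≤ ((2 * R 2 n + 2 * Nat.log 2 n + 10 : ℕ) : ℝ) :=
        Nat.cast_le.2 (lower n hn)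
      push_cast at h1
      linarith
    · have h1 : 2 * R 2 n + 6 ≤ 5 * n := by
        have := upper n hn
        omega
      have h2 : ((2 * R 2 n + 6 : ℕ) : ℝ) ≤ ((5 * n : ℕ) : ℝ) := Nat.cast_le.2 h1
      push_cast at h2
      linarith
  refine ⟨key, ?_⟩
  have hlog : Tendsto (fun n : ℕ => (Nat.log 2 n : ℝ) / n) atTop (𝓝 0) := by
    have h1 : Tendsto (fun n : ℕ => Real.log (n : ℝ) / (n : ℝ)) atTop (𝓝 0) := by
      have := Real.isLittleO_log_id_atTop.tendsto_div_nhds_zero
      exact this.comp tendsto_natCast_atTop_atTop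
    have h2 : Tendsto (fun n : ℕ => Real.log (n : ℝ) / (n : ℝ) / Real.log 2) atTop (𝓝 0) := by
      simpa using h1.div_const (Real.log 2)
    refine squeeze_zero' (Eventually.of_forall fun n => by positivity) ?_ h2
    filter_upwards [eventually_ge_atTop 1] with n hn
    have h3 : (Nat.log 2 n : ℝ) ≤ Real.log n / Real.log 2 := by
      rw [le_div_iff₀ (Real.log_pos (by norm_num)), ← Real.log_pow]
      refine Real.log_le_log (by positivity) ?_
      exact_mod_cast Nat.pow_log_le_self 2 (by omega)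
    rw [div_right_comm]
    exact div_le_div_of_nonneg_right h3 (Nat.cast_nonneg n)
  have hlo : Tendsto (fun n : ℕ => (5 : ℝ) / 2 - (Nat.log 2 n : ℝ) / n - 5 * (1 / (n : ℝ))) atTop
      (𝓝 (5 / 2)) := by
    have h1 := (hlog.const_sub (5 / 2 : ℝ)).sub (tendsto_one_div_atTop_nhds_zero_nat.const_mul 5)
    simpa using h1
  refine tendsto_of_tendsto_of_tendsto_of_le_of_le' hlo tendsto_const_nhds ?_ ?_
  · filter_upwards [eventually_ge_atTop 2] with n hn
    have hn0 : (0 : ℝ) < n := by exact_mod_cast (show 0 < n by omega)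
    rw [le_div_iff₀ hn0]
    have h1 := (key n hn).1
    have h2 : (5 / 2 - (Nat.log 2 n : ℝ) / n - 5 * (1 / (n : ℝ))) * n
        = 5 * (n : ℝ) / 2 - Nat.log 2 n - 5 := by
      field_simp
    rw [h2]
    exact h1
  · filter_upwards [eventually_ge_atTop 2] with n hn
    have hn0 : (0 : ℝ) < n := by exact_mod_cast (show 0 < n by omega)
    rw [div_le_iff₀ hn0]
    have h1 := (key n hn).2
    linarith

end Pool.Agent.Results.MP_ee2f63_co.PairConstant
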